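import Pool.Agent.Results.MP_c86f36_co.SparseHalves

set_option autoImplicit false

/-!
# Chung–Graham: sparse halves of `K_t`-free graphs, every `t ≥ 4` except `5` and `7`

`spanned G S` and `b t n` (the least number of edges spanned by `⌊n/2⌋` vertices of the Turán
graph `T_{t-1}(n)`) are the definitions of the starting file `SparseHalves`.

Let `j ≥ 2`, `M = j + 1`.  The graph `G` is the join of the following graphs: the triangle-free
non-bipartite graph with `2 j + 1` vertices and `j² + 1` edges (`K_{j,j}` with an edge `u v`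
replaced by a path `u w v`), `q - 1` independent sets of size `M` and `c` independent sets of
size `j`.  The Turán graph has a half consisting of `q` independent sets of size `M`; no half of
`G` has as many missing edges.
-/

namespace Pool.Agent.Results.MP_c86f36_co.AllButFiveAndSeven

open Finset Pool.Agent.Results.MP_c86f36_co.SparseHalves

/-- the vertices `A`, `B`, `w` of the special part -/
abbrev X (p : ℕ) : Type := Fin (p + 2) ⊕ (Fin (p + 2) ⊕ Unit)

/-- the vertices of the independent sets -/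
abbrev W (p a c : ℕ) : Type := (Fin a × Fin (p + 3)) ⊕ (Fin c × Fin (p + 2))

/-- indicator of the pairs (also of equal vertices) of the special part that are not adjacent -/
def nX (p : ℕ) : X p → X p → ℕ
  | Sum.inl _, Sum.inl _ => 1
  | Sum.inl x, Sum.inr (Sum.inl y) => if x = 0 ∧ y = 0 then 1 else 0
  | Sum.inl x, Sum.inr (Sum.inr _) => if x = 0 then 0 else 1
  | Sum.inr (Sum.inl x), Sum.inl y => if x = 0 ∧ y = 0 then 1 else 0
  | Sum.inr (Sum.inl _), Sum.inr (Sum.inl _) => 1
  | Sum.inr (Sum.inl x), Sum.inr (Sum.inr _) => if x = 0 then 0 else 1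
  | Sum.inr (Sum.inr _), Sum.inl y => if y = 0 then 0 else 1
  | Sum.inr (Sum.inr _), Sum.inr (Sum.inl y) => if y = 0 then 0 else 1
  | Sum.inr (Sum.inr _), Sum.inr (Sum.inr _) => 1

/-- indicator of the pairs (also of equal vertices) of the other parts that are not adjacent -/
def nW (p a c : ℕ) : W p a c → W p a c → ℕ
  | Sum.inl x, Sum.inl y => if x.1 = y.1 then 1 else 0
  | Sum.inl _, Sum.inr _ => 0
  | Sum.inr _, Sum.inl _ => 0
  | Sum.inr x, Sum.inr y => if x.1 = y.1 then 1 else 0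

/-- indicator of the pairs of vertices that are not adjacent -/
def na (p a c : ℕ) : X p ⊕ W p a c → X p ⊕ W p a c → ℕ
  | Sum.inl x, Sum.inl y => nX p x y
  | Sum.inl _, Sum.inr _ => 0
  | Sum.inr _, Sum.inl _ => 0
  | Sum.inr x, Sum.inr y => nW p a c x y

lemma na_le (p a c : ℕ) (x y : X p ⊕ W p a c) : na p a c x y ≤ 1 := by
  rcases x with (x | x | x) | (x | x) <;> rcases y with (y | y | y) | (y | y) <;>
    simp only [na, nX, nW] <;> first | omega | (split_ifs <;> omega)

lemma na_comm (p a c : ℕ) (x y : X p ⊕ W p a c) : na p a c x y = na p a c y x := by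
  rcases x with (x | x | x) | (x | x) <;> rcases y with (y | y | y) | (y | y) <;>
    simp only [na, nX, nW, and_comm, eq_comm]

lemma na_self (p a c : ℕ) (x : X p ⊕ W p a c) : na p a c x x = 1 := by
  rcases x with (x | x | x) | (x | x) <;> simp [na, nX, nW]

/-- the graph -/
def Gr (p a c : ℕ) {n : ℕ} (e : Fin n ≃ X p ⊕ W p a c) : SimpleGraph (Fin n) where
  Adj u v := na p a c (e u) (e v) = 0
  symm := ⟨fun u v h => by rw [na_comm]; exact h⟩
  loopless := ⟨fun u h => by rw [na_self] at h; exact one_ne_zero h⟩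

instance (p a c : ℕ) {n : ℕ} (e : Fin n ≃ X p ⊕ W p a c) : DecidableRel (Gr p a c e).Adj :=
  fun u v => inferInstanceAs (Decidable (na p a c (e u) (e v) = 0))

/-! ### Cliques -/

/-- colours when the vertex `w` is not used -/
def col1 (p a c : ℕ) : X p ⊕ W p a c → Fin 2 ⊕ (Fin a ⊕ Fin c)
  | Sum.inl (Sum.inl _) => Sum.inl 0
  | Sum.inl (Sum.inr (Sum.inl _)) => Sum.inl 1
  | Sum.inl (Sum.inr (Sum.inr _)) => Sum.inl 0
  | Sum.inr (Sum.inl x) => Sum.inr (Sum.inl x.1)
  | Sum.inr (Sum.inr x) => Sum.inr (Sum.inr x.1)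

/-- colours when the vertex `w` is used -/
def col2 (p a c : ℕ) : X p ⊕ W p a c → Fin 2 ⊕ (Fin a ⊕ Fin c)
  | Sum.inl (Sum.inl _) => Sum.inl 1
  | Sum.inl (Sum.inr (Sum.inl _)) => Sum.inl 1
  | Sum.inl (Sum.inr (Sum.inr _)) => Sum.inl 0
  | Sum.inr (Sum.inl x) => Sum.inr (Sum.inl x.1)
  | Sum.inr (Sum.inr x) => Sum.inr (Sum.inr x.1)

/-- the vertex `w` -/
def wv (p a c : ℕ) : X p ⊕ W p a c := Sum.inl (Sum.inr (Sum.inr ()))

lemma col2_spec (p a c : ℕ) (x y : X p ⊕ W p a c) (h0 : col2 p a c x = col2 p a c y)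
    (h1 : na p a c x y = 0)
    (h2 : x ≠ wv p a c → na p a c x (wv p a c) = 0)
    (h3 : y ≠ wv p a c → na p a c y (wv p a c) = 0) : x = y := by
  rcases x with (x | x | x) | (x | x) <;> rcases y with (y | y | y) | (y | y)
  -- `A`
  · exact absurd (show (1 : ℕ) = 0 from h1) one_ne_zero
  · have h2' : (if x = 0 then 0 else 1) = 0 := h2 (fun h => Sum.inl_ne_inr (Sum.inl.inj h))
    have h3' : (if y = 0 then 0 else 1) = 0 :=
      h3 (fun h => Sum.inl_ne_inr (Sum.inr.inj (Sum.inl.inj h)))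
    have h1' : (if x = 0 ∧ y = 0 then 1 else 0) = 0 := h1
    have hx : x = 0 := by
      by_contra hx
      rw [if_neg hx] at h2'
      exact one_ne_zero h2'
    have hy : y = 0 := by
      by_contra hy
      rw [if_neg hy] at h3'
      exact one_ne_zero h3'
    rw [if_pos ⟨hx, hy⟩] at h1'
    exact absurd h1' one_ne_zero
  · exact absurd (Sum.inl.inj h0) (by decide)
  · exact absurd h0 Sum.inl_ne_inr
  · exact absurd h0 Sum.inl_ne_inr
  -- `B`
  · have h2' : (if x = 0 then 0 else 1) = 0 :=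
      h2 (fun h => Sum.inl_ne_inr (Sum.inr.inj (Sum.inl.inj h)))
    have h3' : (if y = 0 then 0 else 1) = 0 := h3 (fun h => Sum.inl_ne_inr (Sum.inl.inj h))
    have h1' : (if x = 0 ∧ y = 0 then 1 else 0) = 0 := h1
    have hx : x = 0 := by
      by_contra hx
      rw [if_neg hx] at h2'
      exact one_ne_zero h2'
    have hy : y = 0 := by
      by_contra hy
      rw [if_neg hy] at h3'
      exact one_ne_zero h3'
    rw [if_pos ⟨hx, hy⟩] at h1'
    exact absurd h1' one_ne_zero
  · exact absurd (show (1 : ℕ) = 0 from h1) one_ne_zero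
  · exact absurd (Sum.inl.inj h0) (by decide)
  · exact absurd h0 Sum.inl_ne_inr
  · exact absurd h0 Sum.inl_ne_inr
  -- `w`
  · exact absurd (Sum.inl.inj h0) (by decide)
  · exact absurd (Sum.inl.inj h0) (by decide)
  · rfl
  · exact absurd h0 Sum.inl_ne_inr
  · exact absurd h0 Sum.inl_ne_inr
  -- parts of size `M`
  · exact absurd h0 Sum.inr_ne_inl
  · exact absurd h0 Sum.inr_ne_inl
  · exact absurd h0 Sum.inr_ne_inl
  · have h : x.1 = y.1 := Sum.inl.inj (Sum.inr.inj h0)
    have h1' : (if x.1 = y.1 then 1 else 0) = 0 := h1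
    rw [if_pos h] at h1'
    exact absurd h1' one_ne_zero
  · exact absurd (Sum.inr.inj h0) Sum.inl_ne_inr
  -- parts of size `j`
  · exact absurd h0 Sum.inr_ne_inl
  · exact absurd h0 Sum.inr_ne_inl
  · exact absurd h0 Sum.inr_ne_inl
  · exact absurd (Sum.inr.inj h0) Sum.inr_ne_inl
  · have h : x.1 = y.1 := Sum.inr.inj (Sum.inr.inj h0)
    have h1' : (if x.1 = y.1 then 1 else 0) = 0 := h1
    rw [if_pos h] at h1'
    exact absurd h1' one_ne_zero

lemma col1_spec (p a c : ℕ) (x y : X p ⊕ W p a c) (h0 : col1 p a c x = col1 p a c y)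
    (h1 : na p a c x y = 0) (h2 : x ≠ wv p a c) (h3 : y ≠ wv p a c) : x = y := by
  rcases x with (x | x | x) | (x | x) <;> rcases y with (y | y | y) | (y | y)
  -- `A`
  · exact absurd (show (1 : ℕ) = 0 from h1) one_ne_zero
  · exact absurd (Sum.inl.inj h0) (by decide)
  · exact absurd rfl h3
  · exact absurd h0 Sum.inl_ne_inr
  · exact absurd h0 Sum.inl_ne_inr
  -- `B`
  · exact absurd (Sum.inl.inj h0) (by decide)
  · exact absurd (show (1 : ℕ) = 0 from h1) one_ne_zero
  · exact absurd rfl h3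
  · exact absurd h0 Sum.inl_ne_inr
  · exact absurd h0 Sum.inl_ne_inr
  -- `w`
  · exact absurd rfl h2
  · exact absurd rfl h2
  · rfl
  · exact absurd rfl h2
  · exact absurd rfl h2
  -- parts of size `M`
  · exact absurd h0 Sum.inr_ne_inl
  · exact absurd h0 Sum.inr_ne_inl
  · exact absurd h0 Sum.inr_ne_inl
  · have h : x.1 = y.1 := Sum.inl.inj (Sum.inr.inj h0)
    have h1' : (if x.1 = y.1 then 1 else 0) = 0 := h1
    rw [if_pos h] at h1'
    exact absurd h1' one_ne_zero
  · exact absurd (Sum.inr.inj h0) Sum.inl_ne_inr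
  -- parts of size `j`
  · exact absurd h0 Sum.inr_ne_inl
  · exact absurd h0 Sum.inr_ne_inl
  · exact absurd h0 Sum.inr_ne_inl
  · exact absurd (Sum.inr.inj h0) Sum.inr_ne_inl
  · have h : x.1 = y.1 := Sum.inr.inj (Sum.inr.inj h0)
    have h1' : (if x.1 = y.1 then 1 else 0) = 0 := h1
    rw [if_pos h] at h1'
    exact absurd h1' one_ne_zero

lemma clique_le (p a c : ℕ) (T : Finset (X p ⊕ W p a c))
    (hT : ∀ x ∈ T, ∀ y ∈ T, x ≠ y → na p a c x y = 0) : T.card ≤ a + c + 2 := by
  have key : ∃ f : X p ⊕ W p a c → Fin 2 ⊕ (Fin a ⊕ Fin c), Set.InjOn f T := by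
    by_cases hw : wv p a c ∈ T
    · refine ⟨col2 p a c, ?_⟩
      intro x hx y hy hxy
      by_contra hne
      exact hne (col2_spec p a c x y hxy (hT x hx y hy hne) (fun h => hT x hx _ hw h)
        (fun h => hT y hy _ hw h))
    · refine ⟨col1 p a c, ?_⟩
      intro x hx y hy hxy
      by_contra hne
      exact hne (col1_spec p a c x y hxy (hT x hx y hy hne) (fun h => hw (h ▸ hx))
        (fun h => hw (h ▸ hy)))
  obtain ⟨f, hf⟩ := key
  have h := Finset.card_le_card_of_injOn (s := T) (t := Finset.univ) f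
    (fun _ _ => Finset.mem_coe.2 (Finset.mem_univ _)) hf
  rw [Finset.card_univ, Fintype.card_sum, Fintype.card_sum, Fintype.card_fin, Fintype.card_fin,
    Fintype.card_fin] at h
  omega

lemma Gr_cliqueFree (p a c : ℕ) {n : ℕ} (e : Fin n ≃ X p ⊕ W p a c) :
    (Gr p a c e).CliqueFree (a + c + 3) := by
  intro s hs
  have h := clique_le p a c (s.map e.toEmbedding) (by
    intro x hx y hy hxy
    rw [Finset.mem_map] at hx hy
    obtain ⟨u, hu, rfl⟩ := hx
    obtain ⟨v, hv, rfl⟩ := hy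
    exact hs.isClique hu hv (fun h => hxy (by rw [h])))
  rw [Finset.card_map, hs.card_eq] at h
  omega

/-! ### Counting -/

/-- The residue inequality. -/
lemma residue {ι : Type} (s : ι → ℤ) (M : ℤ) (hs : ∀ i, 0 ≤ s i ∧ s i ≤ M) (t : Finset ι) :
    ∀ K z : ℤ, 0 ≤ z → z ≤ M → ∑ i ∈ t, s i + z = M * K →
      ∑ i ∈ t, s i ^ 2 + z * (M - z) ≤ M * ∑ i ∈ t, s i := by
  classical
  induction t using Finset.induction_on with
  | empty =>
    intro K z hz0 hzM h
    simp only [Finset.sum_empty, zero_add, mul_zero] at h ⊢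
    -- `z = M * K` with `0 ≤ z ≤ M`
    rcases lt_trichotomy K 0 with hK | hK | hK
    · have : M * K ≤ 0 := by nlinarith
      have : z = 0 := by linarith
      rw [this]; ring_nf; exact le_refl _
    · rw [hK, mul_zero] at h
      rw [h]; ring_nf; exact le_refl _
    · have : M ≤ M * K := by nlinarith
      have : z = M := by linarith
      rw [this]; ring_nf; exact le_refl _
  | insert i t hi ih =>
    intro K z hz0 hzM h
    rw [Finset.sum_insert hi] at h ⊢
    rw [Finset.sum_insert hi]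
    obtain ⟨h0, h1⟩ := hs i
    by_cases hc : s i + z ≤ M
    · have h2 := ih K (s i + z) (by linarith) hc (by linarith)
      nlinarith [mul_nonneg h0 (sub_nonneg.2 hc)]
    · have hc' : M < s i + z := lt_of_not_ge hc
      have h2 := ih (K - 1) (s i + z - M) (by linarith) (by linarith) (by linarith)
      have h3 : 0 ≤ (M - s i) * (s i + z - M) := mul_nonneg (by linarith) (by linarith)
      nlinarith

lemma sum_ite_ne {m : ℕ} (f : Fin (m + 1) → ℤ) (w : ℤ) :
    ∑ x, f x * (w * (((if x = 0 then 0 else 1 : ℕ)) : ℤ)) = w * (∑ x, f x - f 0) := by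
  have h : ∀ x, f x * (w * (((if x = 0 then 0 else 1 : ℕ)) : ℤ)) =
      w * f x - (if x = 0 then w * f 0 else 0) := by
    intro x
    by_cases hx : x = 0
    · rw [if_pos hx, if_pos hx, hx]
      push_cast
      ring
    · rw [if_neg hx, if_neg hx]
      push_cast
      ring
  rw [Finset.sum_congr rfl (fun x _ => h x), Finset.sum_sub_distrib, ← Finset.mul_sum,
    Finset.sum_ite_eq' Finset.univ (0 : Fin (m + 1)), if_pos (Finset.mem_univ _)]
  ring

lemma sum_ite_and {m : ℕ} (f g : Fin (m + 1) → ℤ) :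
    ∑ x, ∑ y, f x * (g y * (((if x = 0 ∧ y = 0 then 1 else 0 : ℕ)) : ℤ)) = f 0 * g 0 := by
  rw [Finset.sum_eq_single 0, Finset.sum_eq_single 0]
  · rw [if_pos ⟨rfl, rfl⟩]
    push_cast
    ring
  · intro y _ hy
    rw [if_neg (fun h => hy h.2)]
    push_cast
    ring
  · intro h
    exact absurd (Finset.mem_univ _) h
  · intro x _ hx
    apply Finset.sum_eq_zero
    intro y _
    rw [if_neg (fun h => hx h.1)]
    push_cast
    ring
  · intro h
    exact absurd (Finset.mem_univ _) h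

lemma sum_sum_one {m k : ℕ} (f : Fin m → ℤ) (g : Fin k → ℤ) :
    ∑ x, ∑ y, f x * (g y * ((1 : ℕ) : ℤ)) = (∑ x, f x) * ∑ y, g y := by
  rw [Finset.sum_mul_sum]
  refine Finset.sum_congr rfl fun x _ => Finset.sum_congr rfl fun y _ => ?_
  push_cast
  ring

/-- the pairs inside the special part -/
lemma count_X (p : ℕ) (f : X p → ℤ) :
    ∑ x, ∑ y, f x * (f y * (nX p x y : ℤ)) =
      (∑ k, f (Sum.inl k)) ^ 2 + (∑ k, f (Sum.inr (Sum.inl k))) ^ 2 +
      2 * (f (Sum.inl 0) * f (Sum.inr (Sum.inl 0))) + f (Sum.inr (Sum.inr ())) ^ 2 +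
      2 * (f (Sum.inr (Sum.inr ())) * (∑ k, f (Sum.inl k) - f (Sum.inl 0))) +
      2 * (f (Sum.inr (Sum.inr ())) *
        (∑ k, f (Sum.inr (Sum.inl k)) - f (Sum.inr (Sum.inl 0)))) := by
  have hAA := sum_sum_one (fun k => f (Sum.inl k)) (fun k => f (Sum.inl k))
  have hBB := sum_sum_one (fun k => f (Sum.inr (Sum.inl k))) (fun k => f (Sum.inr (Sum.inl k)))
  have hAB := sum_ite_and (fun k => f (Sum.inl k)) (fun k => f (Sum.inr (Sum.inl k)))
  have hBA := sum_ite_and (fun k => f (Sum.inr (Sum.inl k))) (fun k => f (Sum.inl k))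
  have hAw := sum_ite_ne (fun k => f (Sum.inl k)) (f (Sum.inr (Sum.inr ())))
  have hBw := sum_ite_ne (fun k => f (Sum.inr (Sum.inl k))) (f (Sum.inr (Sum.inr ())))
  have hwA : ∑ x, f (Sum.inr (Sum.inr ())) * (f (Sum.inl x) *
      (((if x = 0 then 0 else 1 : ℕ)) : ℤ)) =
      ∑ x, f (Sum.inl x) * (f (Sum.inr (Sum.inr ())) *
      (((if x = 0 then 0 else 1 : ℕ)) : ℤ)) :=
    Finset.sum_congr rfl fun x _ => by ring
  have hwB : ∑ x, f (Sum.inr (Sum.inr ())) * (f (Sum.inr (Sum.inl x)) *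
      (((if x = 0 then 0 else 1 : ℕ)) : ℤ)) =
      ∑ x, f (Sum.inr (Sum.inl x)) * (f (Sum.inr (Sum.inr ())) *
      (((if x = 0 then 0 else 1 : ℕ)) : ℤ)) :=
    Finset.sum_congr rfl fun x _ => by ring
  simp only [Fintype.sum_sum_type, Finset.sum_add_distrib, Finset.univ_unique,
    Finset.sum_singleton, nX, PUnit.default_eq_unit]
  rw [hAA, hBB, hAB, hBA, hwA, hwB, hAw, hBw]
  push_cast
  ring

/-- the pairs inside independent sets of equal size -/
lemma count_parts {a m : ℕ} (f : Fin a × Fin m → ℤ) :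
    ∑ x, ∑ y, f x * (f y * (((if x.1 = y.1 then 1 else 0 : ℕ)) : ℤ)) =
      ∑ i, (∑ k, f (i, k)) ^ 2 := by
  rw [Fintype.sum_prod_type]
  refine Finset.sum_congr rfl fun i _ => ?_
  rw [sq, Finset.sum_mul_sum]
  refine Finset.sum_congr rfl fun k _ => ?_
  rw [Fintype.sum_prod_type, Finset.sum_eq_single i]
  · refine Finset.sum_congr rfl fun l _ => ?_
    rw [if_pos rfl]
    push_cast
    ring
  · intro i' _ hi'
    apply Finset.sum_eq_zero
    intro l _
    rw [if_neg (fun h => hi' h.symm)]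
    push_cast
    ring
  · intro h
    exact absurd (Finset.mem_univ _) h

lemma count_W (p a c : ℕ) (f : W p a c → ℤ) :
    ∑ x, ∑ y, f x * (f y * (nW p a c x y : ℤ)) =
      ∑ i, (∑ k, f (Sum.inl (i, k))) ^ 2 + ∑ i, (∑ k, f (Sum.inr (i, k))) ^ 2 := by
  have h1 := count_parts (fun x => f (Sum.inl x))
  have h2 := count_parts (fun x => f (Sum.inr x))
  rw [← h1, ← h2]
  simp only [Fintype.sum_sum_type, Finset.sum_add_distrib, nW, Nat.cast_zero, mul_zero,
    Finset.sum_const_zero, add_zero, zero_add]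

lemma count_V (p a c : ℕ) (f : X p ⊕ W p a c → ℤ) :
    ∑ x, ∑ y, f x * (f y * (na p a c x y : ℤ)) =
      ∑ x, ∑ y, f (Sum.inl x) * (f (Sum.inl y) * (nX p x y : ℤ)) +
      ∑ x, ∑ y, f (Sum.inr x) * (f (Sum.inr y) * (nW p a c x y : ℤ)) := by
  rw [Fintype.sum_sum_type]
  congr 1
  · refine Finset.sum_congr rfl fun x _ => ?_
    rw [Fintype.sum_sum_type]
    have h : ∑ y : W p a c, f (Sum.inl x) * (f (Sum.inr y) *
        (na p a c (Sum.inl x) (Sum.inr y) : ℤ)) = 0 := by
      apply Finset.sum_eq_zero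
      intro y _
      show f (Sum.inl x) * (f (Sum.inr y) * ((0 : ℕ) : ℤ)) = 0
      push_cast
      ring
    rw [h, add_zero]
    rfl
  · refine Finset.sum_congr rfl fun x _ => ?_
    rw [Fintype.sum_sum_type]
    have h : ∑ y : X p, f (Sum.inr x) * (f (Sum.inl y) *
        (na p a c (Sum.inr x) (Sum.inl y) : ℤ)) = 0 := by
      apply Finset.sum_eq_zero
      intro y _
      show f (Sum.inr x) * (f (Sum.inl y) * ((0 : ℕ) : ℤ)) = 0
      push_cast
      ring
    rw [h, zero_add]
    rfl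

/-! ### The inequality -/

lemma special_bound (j α β u v w z : ℤ) (hj : 2 ≤ j) (hu : u = 0 ∨ u = 1) (hv : v = 0 ∨ v = 1)
    (hw : w = 0 ∨ w = 1) (hα : u ≤ α) (hα' : α ≤ u + (j - 1)) (hβ : v ≤ β)
    (hβ' : β ≤ v + (j - 1)) (hz : 0 ≤ z) (h : α + β + w = j + 1 + z) :
    z ^ 2 + 1 ≤ α * β - u * v + w * (u + v) := by
  rcases hw with rfl | rfl
  · -- `w` is not used
    have h1 : 0 ≤ (j - α) * (j - β) := by
      apply mul_nonneg
      · rcases hu with rfl | rfl <;> linarith
      · rcases hv with rfl | rfl <;> linarith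
    have huv : u * v ≤ 1 := by rcases hu with rfl | rfl <;> rcases hv with rfl | rfl <;> norm_num
    have h2 : β = j + 1 + z - α := by linarith
    have h3 : j * (z + 1) ≤ α * β := by
      subst h2
      nlinarith
    have h4 : z + 1 ≤ j := by rcases hu with rfl | rfl <;> rcases hv with rfl | rfl <;> linarith
    have h5 : (z + 1) * (z + 1) ≤ j * (z + 1) := mul_le_mul_of_nonneg_right h4 (by linarith)
    rcases hz.lt_or_eq with hz' | hz'
    · have hz1 : 1 ≤ z := hz'
      nlinarith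
    · subst hz'
      nlinarith
  · have h2 : β = j + z - α := by linarith
    rcases hu with rfl | rfl <;> rcases hv with rfl | rfl
    · have h1 : 0 ≤ (j - 1 - α) * (j - 1 - β) := mul_nonneg (by linarith) (by linarith)
      have h3 : (j - 1) * (z + 1) ≤ α * β := by
        subst h2
        nlinarith
      have h4 : z + 2 ≤ j := by linarith
      have h5 : (z + 1) * (z + 1) ≤ (j - 1) * (z + 1) :=
        mul_le_mul_of_nonneg_right (by linarith) (by linarith)
      nlinarith
    all_goals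
      have h1 : 0 ≤ (j - α) * (j - β) := mul_nonneg (by linarith) (by linarith)
      have h3 : j * z ≤ α * β := by
        subst h2
        nlinarith
      have h4 : z ≤ j := by linarith
      have h5 : z * z ≤ j * z := mul_le_mul_of_nonneg_right h4 hz
      nlinarith

lemma main_ineq {a c : ℕ} (j α β u v w : ℤ) (s : Fin a → ℤ) (r : Fin c → ℤ) (hj : 2 ≤ j)
    (hu : u = 0 ∨ u = 1) (hv : v = 0 ∨ v = 1) (hw : w = 0 ∨ w = 1) (hα : u ≤ α)
    (hα' : α ≤ u + (j - 1)) (hβ : v ≤ β) (hβ' : β ≤ v + (j - 1))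
    (hs : ∀ i, 0 ≤ s i ∧ s i ≤ j + 1) (hr : ∀ i, 0 ≤ r i ∧ r i ≤ j)
    (h : α + β + w + (∑ i, s i + ∑ i, r i) = (j + 1) * (a + 1)) :
    α ^ 2 + β ^ 2 + 2 * (u * v) + w ^ 2 + 2 * (w * (α - u)) + 2 * (w * (β - v)) +
      (∑ i, s i ^ 2 + ∑ i, r i ^ 2) < (j + 1) ^ 2 * (a + 1) := by
  set M : ℤ := j + 1 with hM
  have hw2 : w ^ 2 = w := by rcases hw with rfl | rfl <;> norm_num
  have hu0 : 0 ≤ u := by rcases hu with rfl | rfl <;> norm_num
  have hv0 : 0 ≤ v := by rcases hv with rfl | rfl <;> norm_num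
  have hw0 : 0 ≤ w := by rcases hw with rfl | rfl <;> norm_num
  have hu1 : u ≤ 1 := by rcases hu with rfl | rfl <;> norm_num
  have hv1 : v ≤ 1 := by rcases hv with rfl | rfl <;> norm_num
  have hw1 : w ≤ 1 := by rcases hw with rfl | rfl <;> norm_num
  -- the bound for sets of size at most `M`
  have hS : ∑ i, s i ^ 2 ≤ M * ∑ i, s i := by
    rw [Finset.mul_sum]
    refine Finset.sum_le_sum fun i _ => ?_
    nlinarith [hs i, mul_nonneg (hs i).1 (sub_nonneg.2 (hs i).2)]
  have hR : ∑ i, r i ^ 2 ≤ (M - 1) * ∑ i, r i := by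
    rw [Finset.mul_sum]
    refine Finset.sum_le_sum fun i _ => ?_
    nlinarith [hr i, mul_nonneg (hr i).1 (sub_nonneg.2 (hr i).2)]
  have hR0 : 0 ≤ ∑ i, r i := Finset.sum_nonneg fun i _ => (hr i).1
  have hS1 : ∑ i, s i ≤ M * a := by
    have h1 : ∑ i, s i ≤ ∑ _i : Fin a, M := Finset.sum_le_sum fun i _ => (hs i).2
    rw [Finset.sum_const, Finset.card_univ, Fintype.card_fin, nsmul_eq_mul] at h1
    linarith
  set σs := ∑ i, s i with hσs
  set σr := ∑ i, r i with hσr
  set τs := ∑ i, s i ^ 2 with hτs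
  set τr := ∑ i, r i ^ 2 with hτr
  -- the left side
  have hy : α ^ 2 + β ^ 2 + 2 * (u * v) + w ^ 2 + 2 * (w * (α - u)) + 2 * (w * (β - v)) =
      (α + β + w) ^ 2 - 2 * (α * β - u * v + w * (u + v)) := by ring
  rw [hy]
  have hab : u * v ≤ α * β := mul_le_mul hα hβ hv0 (by linarith)
  have hD : 0 ≤ α * β - u * v + w * (u + v) := by
    have := mul_nonneg hw0 (add_nonneg hu0 hv0)
    linarith
  set D := α * β - u * v + w * (u + v) with hDdef
  set y := α + β + w with hydef
  have hy0 : 0 ≤ y := by rw [hydef]; linarith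
  rcases hy0.lt_or_eq with hy1 | hy1
  · by_cases hyM : y < M
    · -- `0 < y < M`
      have h1 : 0 < y * (M - y) := mul_pos hy1 (by linarith)
      have h2 : M * (y + (σs + σr)) = M ^ 2 * (a + 1) := by rw [h]; ring
      nlinarith
    · -- `M ≤ y`
      obtain ⟨z, hz⟩ : ∃ z, y = M + z := ⟨y - M, by ring⟩
      have hz0 : 0 ≤ z := by
        have := not_lt.1 hyM
        linarith
      have hzj : z ≤ M := by
        have : y ≤ 2 * j + 1 := by rw [hydef]; linarith
        linarith
      have h1 := special_bound j α β u v w z hj hu hv hw hα hα' hβ hβ' hz0 (by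
        rw [← hM, ← hz])
      have h2 := residue (Sum.elim s r) M (by
        rintro (i | i)
        · exact hs i
        · exact ⟨(hr i).1, (hr i).2.trans (by linarith)⟩) Finset.univ a z hz0 hzj (by
        rw [Fintype.sum_sum_type]
        simp only [Sum.elim_inl, Sum.elim_inr]
        rw [← hσs, ← hσr]
        linarith)
      rw [Fintype.sum_sum_type, Fintype.sum_sum_type] at h2
      simp only [Sum.elim_inl, Sum.elim_inr] at h2
      rw [← hσs, ← hσr, ← hτs, ← hτr] at h2
      rw [← hDdef] at h1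
      have h3 : M * (σs + σr) = M ^ 2 * (a + 1) - M * y := by
        have : σs + σr = M * (a + 1) - y := by linarith
        rw [this]
        ring
      rw [hz] at h3 ⊢
      nlinarith
  · -- `y = 0`
    have h1 : σs + σr = M * (a + 1) := by linarith
    have h2 : M ≤ σr := by linarith
    have h3 : M * (σs + σr) = M ^ 2 * (a + 1) := by rw [h1]; ring
    rw [← hy1]
    nlinarith

/-! ### The halves of the graph -/

lemma sum_nonneg_le {m : ℕ} (g : Fin m → ℤ) (hg : ∀ k, g k = 0 ∨ g k = 1) :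
    0 ≤ ∑ k, g k ∧ ∑ k, g k ≤ m := by
  constructor
  · refine Finset.sum_nonneg fun k _ => ?_
    rcases hg k with h | h <;> rw [h]
    exact zero_le_one
  · have h1 : ∑ k, g k ≤ ∑ _k : Fin m, (1 : ℤ) := by
      refine Finset.sum_le_sum fun k _ => ?_
      rcases hg k with h | h <;> rw [h]
      exact zero_le_one
    rw [Finset.sum_const, Finset.card_univ, Fintype.card_fin, nsmul_eq_mul, mul_one] at h1
    exact h1

lemma count_lt (p a c : ℕ) (f : X p ⊕ W p a c → ℤ) (hf : ∀ x, f x = 0 ∨ f x = 1)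
    (h : ∑ x, f x = (p + 3) * (a + 1)) :
    ∑ x, ∑ y, f x * (f y * (na p a c x y : ℤ)) < (p + 3) ^ 2 * (a + 1) := by
  rw [count_V, count_W p a c (fun x => f (Sum.inr x)), count_X p (fun x => f (Sum.inl x))]
  have hA := sum_nonneg_le (fun k : Fin (p + 1) => f (Sum.inl (Sum.inl k.succ))) (fun k => hf _)
  have hB := sum_nonneg_le (fun k : Fin (p + 1) => f (Sum.inl (Sum.inr (Sum.inl k.succ))))
    (fun k => hf _)
  have hA' : ∑ k : Fin (p + 2), f (Sum.inl (Sum.inl k)) =
      f (Sum.inl (Sum.inl 0)) + ∑ k : Fin (p + 1), f (Sum.inl (Sum.inl k.succ)) :=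
    Fin.sum_univ_succ _
  have hB' : ∑ k : Fin (p + 2), f (Sum.inl (Sum.inr (Sum.inl k))) =
      f (Sum.inl (Sum.inr (Sum.inl 0))) +
      ∑ k : Fin (p + 1), f (Sum.inl (Sum.inr (Sum.inl k.succ))) :=
    Fin.sum_univ_succ _
  have key := main_ineq (a := a) (c := c) ((p : ℤ) + 2)
    (∑ k : Fin (p + 2), f (Sum.inl (Sum.inl k)))
    (∑ k : Fin (p + 2), f (Sum.inl (Sum.inr (Sum.inl k))))
    (f (Sum.inl (Sum.inl 0))) (f (Sum.inl (Sum.inr (Sum.inl 0))))
    (f (Sum.inl (Sum.inr (Sum.inr ()))))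
    (fun i => ∑ k, f (Sum.inr (Sum.inl (i, k)))) (fun i => ∑ k, f (Sum.inr (Sum.inr (i, k))))
    (by linarith [Int.natCast_nonneg p]) (hf _) (hf _) (hf _)
    (by rw [hA']; linarith [hA.1])
    (by
      rw [hA']
      have := hA.2
      push_cast at this
      linarith)
    (by rw [hB']; linarith [hB.1])
    (by
      rw [hB']
      have := hB.2
      push_cast at this
      linarith)
    (fun i => by
      have := sum_nonneg_le (fun k : Fin (p + 3) => f (Sum.inr (Sum.inl (i, k)))) (fun k => hf _)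
      push_cast at this
      exact ⟨this.1, by linarith [this.2]⟩)
    (fun i => by
      have := sum_nonneg_le (fun k : Fin (p + 2) => f (Sum.inr (Sum.inr (i, k)))) (fun k => hf _)
      push_cast at this
      exact ⟨this.1, by linarith [this.2]⟩)
    (by
      have h' : ∑ x : Unit, f (Sum.inl (Sum.inr (Sum.inr x))) =
          f (Sum.inl (Sum.inr (Sum.inr ()))) := Fintype.sum_unique _
      rw [Fintype.sum_sum_type, Fintype.sum_sum_type, Fintype.sum_sum_type, Fintype.sum_sum_type,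
        Fintype.sum_prod_type, Fintype.sum_prod_type, h'] at h
      linarith)
  have e1 : ((p : ℤ) + 2 + 1) ^ 2 * ((a : ℤ) + 1) = (p + 3) ^ 2 * (a + 1) := by ring
  rw [e1] at key
  exact key

lemma card_count (p a c : ℕ) {n : ℕ} (e : Fin n ≃ X p ⊕ W p a c) (S : Finset (Fin n)) :
    ((#{q ∈ S ×ˢ S | ¬ na p a c (e q.1) (e q.2) = 0} : ℕ) : ℤ) =
      ∑ x, ∑ y, (if e.symm x ∈ S then 1 else 0 : ℤ) *
        ((if e.symm y ∈ S then 1 else 0 : ℤ) * (na p a c x y : ℤ)) := by
  have h1 : #{q ∈ S ×ˢ S | ¬ na p a c (e q.1) (e q.2) = 0} =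
      ∑ q ∈ S ×ˢ S, na p a c (e q.1) (e q.2) := by
    rw [Finset.card_filter]
    refine Finset.sum_congr rfl fun q _ => ?_
    have h := na_le p a c (e q.1) (e q.2)
    by_cases h0 : na p a c (e q.1) (e q.2) = 0
    · rw [if_neg (fun h' => h' h0), h0]
    · rw [if_pos h0]
      omega
  rw [h1, Finset.sum_product]
  push_cast
  rw [← Equiv.sum_comp e]
  have h2 : ∀ g : Fin n → ℤ, ∑ u ∈ S, g u = ∑ u, (if u ∈ S then 1 else 0 : ℤ) * g u := by
    intro g
    have h3 : ∀ u, (if u ∈ S then 1 else 0 : ℤ) * g u = if u ∈ S then g u else 0 := by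
      intro u
      by_cases hu : u ∈ S
      · rw [if_pos hu, if_pos hu, one_mul]
      · rw [if_neg hu, if_neg hu, zero_mul]
    rw [Finset.sum_congr rfl (fun u _ => h3 u), Finset.sum_ite_mem, Finset.univ_inter]
  rw [h2]
  refine Finset.sum_congr rfl fun u _ => ?_
  rw [h2, ← Equiv.sum_comp e, Finset.mul_sum]
  refine Finset.sum_congr rfl fun v _ => ?_
  rw [Equiv.symm_apply_apply, Equiv.symm_apply_apply]

lemma Gr_spanned {p a c n : ℕ} (e : Fin n ≃ X p ⊕ W p a c) (S : Finset (Fin n))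
    (hS : S.card = (p + 3) * (a + 1)) :
    S.card * S.card < 2 * spanned (Gr p a c e) S + (p + 3) * (p + 3) * (a + 1) := by
  rw [two_mul_spanned]
  have h1 : #{q ∈ S ×ˢ S | (Gr p a c e).Adj q.1 q.2} +
      #{q ∈ S ×ˢ S | ¬ na p a c (e q.1) (e q.2) = 0} = S.card * S.card := by
    rw [← Finset.card_product]
    exact Finset.card_filter_add_card_filter_not (s := S ×ˢ S)
      (fun q : Fin n × Fin n => na p a c (e q.1) (e q.2) = 0)
  have h2 : ((#{q ∈ S ×ˢ S | ¬ na p a c (e q.1) (e q.2) = 0} : ℕ) : ℤ) <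
      (p + 3) ^ 2 * (a + 1) := by
    rw [card_count]
    apply count_lt p a c (fun x => if e.symm x ∈ S then 1 else 0)
    · intro x
      by_cases hx : e.symm x ∈ S
      · exact Or.inr (if_pos hx)
      · exact Or.inl (if_neg hx)
    · rw [Equiv.sum_comp e.symm (fun u => if u ∈ S then (1 : ℤ) else 0), Finset.sum_ite_mem,
        Finset.univ_inter, Finset.sum_const, nsmul_eq_mul, mul_one, hS]
      push_cast
      ring
  have h3 : #{q ∈ S ×ˢ S | ¬ na p a c (e q.1) (e q.2) = 0} < (p + 3) * (p + 3) * (a + 1) := by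
    have h4 : ((#{q ∈ S ×ˢ S | ¬ na p a c (e q.1) (e q.2) = 0} : ℕ) : ℤ) <
        (((p + 3) * (p + 3) * (a + 1) : ℕ) : ℤ) := by
      refine lt_of_lt_of_eq h2 ?_
      push_cast
      ring
    exact Nat.cast_lt.1 h4
  omega

open Classical in
/-- a half of the Turán graph consisting of `q` independent sets of size `m + 1` -/
theorem turan_upper {r n q m : ℕ} (hr : 0 < r) (hqr : q ≤ r) (hn : m * r + q ≤ n)
    (hh : n / 2 = (m + 1) * q) :
    2 * b (r + 1) n + (m + 1) * (m + 1) * q ≤ ((m + 1) * q) * ((m + 1) * q) := by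
  let φ : Fin q × Fin (m + 1) → Fin n := fun w => ⟨w.1.val + w.2.val * r, by
    have h1 := w.1.isLt
    have h2 : w.2.val ≤ m := by have := w.2.isLt; omega
    have h3 : w.2.val * r ≤ m * r := Nat.mul_le_mul_right _ h2
    omega⟩
  have hmod : ∀ w, (φ w : ℕ) % r = w.1.val := by
    intro w
    show (w.1.val + w.2.val * r) % r = w.1.val
    rw [Nat.add_mul_mod_self_right]
    exact Nat.mod_eq_of_lt (lt_of_lt_of_le w.1.isLt hqr)
  have hinj : Function.Injective φ := by
    intro w w' h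
    have h1 : w.1.val = w'.1.val := by rw [← hmod w, ← hmod w', h]
    have h2 : w.1.val + w.2.val * r = w'.1.val + w'.2.val * r := congrArg Fin.val h
    have h3 : w.2.val * r = w'.2.val * r := by omega
    have h4 : w.2.val = w'.2.val := Nat.eq_of_mul_eq_mul_right hr h3
    exact Prod.ext (Fin.ext h1) (Fin.ext h4)
  set S : Finset (Fin n) := Finset.univ.image φ with hS
  have hcard : S.card = (m + 1) * q := by
    rw [hS, Finset.card_image_of_injective _ hinj, Finset.card_univ, Fintype.card_prod,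
      Fintype.card_fin, Fintype.card_fin]
    ring
  have hb : b (r + 1) n ≤ spanned (SimpleGraph.turanGraph n (r + 1 - 1)) S :=
    Nat.sInf_le ⟨S, by rw [hcard, hh], rfl⟩
  rw [Nat.add_sub_cancel] at hb
  have h2 := two_mul_spanned (SimpleGraph.turanGraph n r) S
  have h3 : #{p ∈ S ×ˢ S | (SimpleGraph.turanGraph n r).Adj p.1 p.2} ≤
      #{w : (Fin q × Fin (m + 1)) × (Fin q × Fin (m + 1)) | ¬ w.1.1 = w.2.1} := by
    have hsub : {p ∈ S ×ˢ S | (SimpleGraph.turanGraph n r).Adj p.1 p.2} ⊆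
        ({w : (Fin q × Fin (m + 1)) × (Fin q × Fin (m + 1)) | ¬ w.1.1 = w.2.1} :
          Finset _).image (fun w => (φ w.1, φ w.2)) := by
      intro p hp
      rw [Finset.mem_filter, Finset.mem_product, hS, Finset.mem_image, Finset.mem_image] at hp
      obtain ⟨⟨⟨w, -, hw⟩, ⟨w', -, hw'⟩⟩, hadj⟩ := hp
      rw [Finset.mem_image]
      refine ⟨(w, w'), ?_, ?_⟩
      · rw [Finset.mem_filter]
        refine ⟨Finset.mem_univ _, ?_⟩
        intro h
        rw [SimpleGraph.turanGraph_adj] at hadj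
        apply hadj
        rw [← hw, ← hw', hmod, hmod]
        exact congrArg Fin.val h
      · exact Prod.ext hw hw'
    exact (Finset.card_le_card hsub).trans Finset.card_image_le
  have h4 : #{w : (Fin q × Fin (m + 1)) × (Fin q × Fin (m + 1)) | w.1.1 = w.2.1} +
      #{w : (Fin q × Fin (m + 1)) × (Fin q × Fin (m + 1)) | ¬ w.1.1 = w.2.1} =
      ((m + 1) * q) * ((m + 1) * q) := by
    rw [Finset.card_filter_add_card_filter_not, Finset.card_univ, Fintype.card_prod,
      Fintype.card_prod, Fintype.card_fin, Fintype.card_fin]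
    ring
  have h5 : (m + 1) * (m + 1) * q ≤
      #{w : (Fin q × Fin (m + 1)) × (Fin q × Fin (m + 1)) | w.1.1 = w.2.1} := by
    have h6 : (Finset.univ : Finset (Fin q × (Fin (m + 1) × Fin (m + 1)))).card =
        (m + 1) * (m + 1) * q := by
      rw [Finset.card_univ, Fintype.card_prod, Fintype.card_prod, Fintype.card_fin,
        Fintype.card_fin]
      ring
    rw [← h6]
    apply Finset.card_le_card_of_injOn (fun z => ((z.1, z.2.1), (z.1, z.2.2)))
    · intro z _
      apply Finset.mem_coe.2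
      rw [Finset.mem_filter]
      exact ⟨Finset.mem_univ _, rfl⟩
    · rintro ⟨x, y, z⟩ _ ⟨x', y', z'⟩ _ h
      simp only [Prod.mk.injEq] at h
      obtain ⟨⟨h1, h2⟩, h3, h4⟩ := h
      subst h1 h2 h4
      rfl
  omega

theorem counter (p a c n : ℕ) (hn : n = (p + 2) * (a + c + 2) + (a + 1))
    (hh : n / 2 = (p + 3) * (a + 1)) :
    ∃ G : SimpleGraph (Fin n), G.CliqueFree (a + c + 3) ∧
      ∀ S : Finset (Fin n), S.card = n / 2 → b (a + c + 3) n < spanned G S := by
  have hcard : Fintype.card (Fin n) = Fintype.card (X p ⊕ W p a c) := by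
    simp only [Fintype.card_fin, Fintype.card_sum, Fintype.card_prod, Fintype.card_unit, hn]
    ring
  let e := Fintype.equivOfCardEq hcard
  refine ⟨Gr p a c e, Gr_cliqueFree p a c e, fun S hS => ?_⟩
  have h1 := turan_upper (r := a + c + 2) (n := n) (q := a + 1) (m := p + 2) (by omega) (by omega)
    (by omega) (by rw [hh])
  rw [hh] at hS
  have h2 := Gr_spanned e S hS
  rw [hS] at h2
  have e1 : (p + 2 + 1) * (p + 2 + 1) * (a + 1) = (p + 3) * (p + 3) * (a + 1) := rfl
  have e2 : (p + 2 + 1) * (a + 1) = (p + 3) * (a + 1) := rfl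
  have e3 : a + c + 2 + 1 = a + c + 3 := rfl
  rw [e1, e2, e3] at h1
  omega

/-- For every `t ≥ 4` other than `5` and `7` there are `n ≥ t` and a `K_t`-free graph on `n`
vertices in which every set of `⌊n/2⌋` vertices spans more than `b_t(n)` edges. -/
theorem result : ∀ t : ℕ, 4 ≤ t → t ≠ 5 → t ≠ 7 → ∃ n : ℕ, t ≤ n ∧ ∃ G : SimpleGraph (Fin n),
    G.CliqueFree t ∧ ∀ S : Finset (Fin n), S.card = n / 2 → b t n < spanned G S := by
  intro t h4 h5 h7
  rcases Nat.lt_or_ge t 6 with h6 | h6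
  · have : t = 4 := by omega
    subst this
    exact ⟨7, by norm_num, counter 0 0 1 7 (by norm_num) (by norm_num)⟩
  rcases Nat.even_or_odd' t with ⟨k, rfl | rfl⟩
  · -- `t = 2 j + 2`
    obtain ⟨p, rfl⟩ : ∃ p, k = p + 3 := ⟨k - 3, by omega⟩
    have h := counter p (p + 1) (p + 2) _ rfl (by
      have e : (p + 2) * (p + 1 + (p + 2) + 2) + (p + 1 + 1) = 2 * ((p + 3) * (p + 1 + 1)) := by
        ring
      rw [e]
      exact Nat.mul_div_cancel_left _ (by norm_num))
    have e : p + 1 + (p + 2) + 3 = 2 * (p + 3) := by ring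
    rw [e] at h
    exact ⟨_, by nlinarith, h⟩
  · rcases Nat.even_or_odd' k with ⟨l, rfl | rfl⟩
    · -- `t = 4 j + 1`
      obtain ⟨p, rfl⟩ : ∃ p, l = p + 2 := ⟨l - 2, by omega⟩
      have h := counter p (2 * p + 2) (2 * p + 4) _ rfl (by
        have e : (p + 2) * (2 * p + 2 + (2 * p + 4) + 2) + (2 * p + 2 + 1) =
          1 + 2 * ((p + 3) * (2 * p + 2 + 1)) := by
          ring
        rw [e, Nat.add_mul_div_left _ _ (by norm_num : 0 < 2)]
        norm_num)
      have e : 2 * p + 2 + (2 * p + 4) + 3 = 2 * (2 * (p + 2)) + 1 := by ring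
      rw [e] at h
      exact ⟨_, by nlinarith, h⟩
    · -- `t = 4 j + 3`
      obtain ⟨p, rfl⟩ : ∃ p, l = p + 2 := ⟨l - 2, by omega⟩
      have h := counter p (2 * p + 3) (2 * p + 5) _ rfl (by
        have e : (p + 2) * (2 * p + 3 + (2 * p + 5) + 2) + (2 * p + 3 + 1) =
          2 * ((p + 3) * (2 * p + 3 + 1)) := by
          ring
        rw [e]
        exact Nat.mul_div_cancel_left _ (by norm_num))
      have e : 2 * p + 3 + (2 * p + 5) + 3 = 2 * (2 * (p + 2) + 1) + 1 := by ring
      rw [e] at h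
      exact ⟨_, by nlinarith, h⟩

end Pool.Agent.Results.MP_c86f36_co.AllButFiveAndSeven
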